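import Pool.Agent.Y795.PiH.Stm

/-! # PH12: the integral representation as a mean value inequality -/

set_option autoImplicit false

open Polynomial

namespace Pool.Agent.Y511.PiH

open Pool.Agent.H326R2.Pi Pool.Agent.Y795.PiH

theorem aeval_sol (p : ℕ) (Q Ψ : ℚ[X]) (k : ℚ) (h : Sl p Q k Ψ) (w : ℂ) :
    (w ^ 2 - 8) * aeval w (derivative Ψ) - (4 * (p : ℂ) - 1) * w * aeval w Ψ =
      aeval w Q * ((w - 2) ^ (2 * p) * (w - 3) ^ (4 * p)) - k * (w ^ 2 - 8) ^ (2 * p) := by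
  unfold Sl LL WW at h
  have h1 := congrArg (aeval w) h
  simp only [map_sub, map_mul, map_pow, aeval_X, aeval_C, map_ofNat, map_natCast, map_one,
    Nat.cast_mul, Nat.cast_ofNat, eq_ratCast] at h1
  rw [← h1]
  ring

/-- the branch of the logarithm -/
noncomputable def Lg (x : ℂ) : ℂ := Complex.log (-Complex.I * x) + Complex.I * (Real.pi / 2)

/-- the primitive -/
noncomputable def Fp (p : ℕ) (k : ℚ) (Ψ : ℚ[X]) (x : ℂ) : ℂ :=
  (k : ℂ) * Lg x + aeval (x + 2 / x) Ψ * ((x - 2 / x) / (x - 2 / x) ^ (4 * p))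

/-- its derivative -/
noncomputable def Fd (p : ℕ) (Q : ℚ[X]) (x : ℂ) : ℂ :=
  (aeval (x + 2 / x) Q * ((x + 2 / x - 2) ^ (2 * p) * (x + 2 / x - 3) ^ (4 * p))) /
    (x * (x - 2 / x) ^ (4 * p))

theorem slit {x : ℂ} (h0 : x ≠ 0) (h : 0 ≤ x.im) : -Complex.I * x ∈ Complex.slitPlane := by
  rw [Complex.mem_slitPlane_iff]
  have e1 : (-Complex.I * x).re = x.im := by simp
  have e2 : (-Complex.I * x).im = -x.re := by simp
  rw [e1, e2]
  rcases h.lt_or_eq with h1 | h1
  · exact Or.inl h1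
  · right
    intro h2
    apply h0
    apply Complex.ext
    · simpa using h2
    · exact h1.symm

theorem hasDeriv (p : ℕ) (Q Ψ : ℚ[X]) (k : ℚ) (h : Sl p Q k Ψ) (z : ℂ) (hz0 : z ≠ 0)
    (him : 0 ≤ z.im) (hz2 : z ^ 2 ≠ 2) (hp1 : 1 ≤ p) : HasDerivAt (Fp p k Ψ) (Fd p Q z) z := by
  have hs0 : z - 2 / z ≠ 0 := by
    intro h
    apply hz2
    have h1 : z - 2 / z = (z ^ 2 - 2) / z := by
      field_simp
    rw [h1, div_eq_zero_iff] at h
    rcases h with h | h
    · exact sub_eq_zero.mp h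
    · exact absurd h hz0
  have hw : HasDerivAt (fun z : ℂ => z + 2 / z) ((z - 2 / z) / z) z := by
    have h1 := (hasDerivAt_id z).add ((hasDerivAt_inv hz0).const_mul 2)
    refine (h1.congr_deriv ?_).congr_of_eventuallyEq ?_
    · field_simp
      ring
    · refine Filter.Eventually.of_forall fun x => ?_
      show x + 2 / x = x + 2 * x⁻¹
      rw [div_eq_mul_inv]
  have hs : HasDerivAt (fun z : ℂ => z - 2 / z) ((z + 2 / z) / z) z := by
    have h1 := (hasDerivAt_id z).sub ((hasDerivAt_inv hz0).const_mul 2)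
    refine (h1.congr_deriv ?_).congr_of_eventuallyEq ?_
    · field_simp
      ring
    · refine Filter.Eventually.of_forall fun x => ?_
      show x - 2 / x = x - 2 * x⁻¹
      rw [div_eq_mul_inv]
  have hlog : HasDerivAt (fun z : ℂ => (k : ℂ) * Lg z) ((k : ℂ) * z⁻¹) z := by
    refine HasDerivAt.const_mul _ ?_
    unfold Lg
    have h1 : HasDerivAt (fun z : ℂ => -Complex.I * z) (-Complex.I) z := by
      simpa using (hasDerivAt_id z).const_mul (-Complex.I)
    have h2 := (h1.clog (slit hz0 him)).add_const (Complex.I * (Real.pi / 2))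
    refine h2.congr_deriv ?_
    field_simp
  have hΨ' : HasDerivAt (fun z : ℂ => aeval (z + 2 / z) Ψ)
      (aeval (z + 2 / z) (derivative Ψ) * ((z - 2 / z) / z)) z :=
    HasDerivAt.comp (h₂ := fun w : ℂ => aeval w Ψ) z
      (Polynomial.hasDerivAt_aeval Ψ (z + 2 / z)) hw
  have hq : HasDerivAt (fun z : ℂ => (z - 2 / z) / (z - 2 / z) ^ (4 * p))
      (((z + 2 / z) / z * (z - 2 / z) ^ (4 * p) - (z - 2 / z) *
        (((4 * p : ℕ) : ℂ) * (z - 2 / z) ^ (4 * p - 1) * ((z + 2 / z) / z))) /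
          ((z - 2 / z) ^ (4 * p)) ^ 2) z :=
    hs.div (hs.pow (4 * p)) (pow_ne_zero _ hs0)
  have hall := hlog.add (hΨ'.mul hq)
  refine hall.congr_deriv ?_
  have h1 := aeval_sol p Q Ψ k h (z + 2 / z)
  have e1 : ((z + 2 / z) / z * (z - 2 / z) ^ (4 * p) - (z - 2 / z) *
        (((4 * p : ℕ) : ℂ) * (z - 2 / z) ^ (4 * p - 1) * ((z + 2 / z) / z))) /
          ((z - 2 / z) ^ (4 * p)) ^ 2 =
      -((4 * (p : ℂ) - 1) * (z + 2 / z)) / (z * (z - 2 / z) ^ (4 * p)) := by
    have e2 : (z - 2 / z) * (z - 2 / z) ^ (4 * p - 1) = (z - 2 / z) ^ (4 * p) := by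
      rw [← pow_succ']
      congr 1
      omega
    have e3 : (z - 2 / z) * (((4 * p : ℕ) : ℂ) * (z - 2 / z) ^ (4 * p - 1) * ((z + 2 / z) / z)) =
        ((4 * p : ℕ) : ℂ) * ((z - 2 / z) * (z - 2 / z) ^ (4 * p - 1)) * ((z + 2 / z) / z) := by
      ring
    rw [e3, e2]
    have hp : (z - 2 / z) ^ (4 * p) ≠ 0 := pow_ne_zero _ hs0
    generalize (z - 2 / z) ^ (4 * p) = q at hp ⊢
    push_cast
    field_simp
    ring
  have e4 : (z + 2 / z) ^ 2 - 8 = (z - 2 / z) ^ 2 := by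
    field_simp
    ring
  have e5 : ((z + 2 / z) ^ 2 - 8) ^ (2 * p) = (z - 2 / z) ^ (4 * p) := by
    rw [e4, ← pow_mul]
    congr 1
    omega
  rw [e1]
  unfold Fd
  have e7 : aeval (z + 2 / z) Q * ((z + 2 / z - 2) ^ (2 * p) * (z + 2 / z - 3) ^ (4 * p)) =
        (z - 2 / z) ^ 2 * aeval (z + 2 / z) (derivative Ψ) -
          (4 * (p : ℂ) - 1) * (z + 2 / z) * aeval (z + 2 / z) Ψ +
          k * (z - 2 / z) ^ (4 * p) := by
    rw [← e5, ← e4, h1]
    ring
  rw [e7]
  have hp : (z - 2 / z) ^ (4 * p) ≠ 0 := pow_ne_zero _ hs0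
  generalize (z - 2 / z) ^ (4 * p) = q at hp ⊢
  generalize z - 2 / z = s
  generalize z + 2 / z = w
  generalize aeval w (derivative Ψ) = A
  generalize aeval w Ψ = B
  field_simp
  ring

theorem norm_Fd (p : ℕ) (Q : ℚ[X]) (x : ℂ) (hx : 1 ≤ ‖x‖) (B : ℝ)
    (hB : ‖aeval (wx x) Q‖ * W1 (wx x) ^ p ≤ B) : ‖Fd p Q x‖ ≤ B := by
  have hx0 : x ≠ 0 := by
    intro h
    rw [h, norm_zero] at hx
    linarith
  have e4 : (wx x) ^ 2 - 8 = (x - 2 / x) ^ 2 := by
    unfold wx
    field_simp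
    ring
  have e : ‖Fd p Q x‖ = ‖aeval (wx x) Q‖ * W1 (wx x) ^ p / ‖x‖ := by
    unfold Fd W1
    rw [e4]
    simp only [norm_div, norm_mul, norm_pow]
    unfold wx
    rw [div_pow, mul_pow]
    simp only [← pow_mul]
    have a1 : 2 * 2 * p = 4 * p := by ring
    rw [a1, mul_div_assoc', div_div]
    congr 1
    ring
  rw [e]
  have h0 : 0 ≤ ‖aeval (wx x) Q‖ * W1 (wx x) ^ p := by
    unfold W1
    positivity
  exact (div_le_self h0 hx).trans hB

theorem pathBound (F F' : ℂ → ℂ) (B : ℝ) : ∀ (l : List ℂ) (a b : ℂ), l.head? = some a →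
    l.getLast? = some b → (∀ x, OnPath l x → HasDerivAt F (F' x) x ∧ ‖F' x‖ ≤ B) →
    ‖F b - F a‖ ≤ plen l * B
  | [], a, b => by
    intro h
    simp at h
  | [c], a, b => by
    intro h1 h2 _
    simp at h1 h2
    subst h1
    subst h2
    simp [plen]
  | (c :: d :: l), a, b => by
    intro h1 h2 h3
    have hc : c = a := by simpa using h1
    subst hc
    have h2' : (d :: l).getLast? = some b := by
      rw [← h2]
      simp [List.getLast?_cons_cons]
    have ih := pathBound F F' B (d :: l) d b rfl h2' (fun x hx => h3 x (Or.inr hx))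
    have hseg : ‖F d - F c‖ ≤ B * ‖d - c‖ := by
      refine (convex_segment c d).norm_image_sub_le_of_norm_hasDerivWithin_le
        (f := F) (f' := F') (fun x hx => (h3 x (Or.inl hx)).1.hasDerivWithinAt)
        (fun x hx => (h3 x (Or.inl hx)).2) (left_mem_segment ℝ c d) (right_mem_segment ℝ c d)
    have e : F b - F c = (F b - F d) + (F d - F c) := by ring
    rw [e]
    refine (norm_add_le _ _).trans ?_
    show _ ≤ (‖d - c‖ + plen (d :: l)) * B
    nlinarith [ih, hseg]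

theorem real_part_im (p : ℕ) (Ψ : ℚ[X]) (x : ℝ) :
    (aeval ((x : ℂ) + 2 / (x : ℂ)) Ψ * (((x : ℂ) - 2 / x) / ((x : ℂ) - 2 / x) ^ (4 * p))).im = 0 := by
  have h1 : (x : ℂ) + 2 / (x : ℂ) = ((x + 2 / x : ℝ) : ℂ) := by push_cast; ring
  have h2 : ((x : ℂ) - 2 / x) / ((x : ℂ) - 2 / x) ^ (4 * p) =
      (((x - 2 / x) / (x - 2 / x) ^ (4 * p) : ℝ) : ℂ) := by push_cast; ring
  have h3 : aeval (((x + 2 / x : ℝ) : ℂ)) Ψ = ((aeval (x + 2 / x : ℝ) Ψ : ℝ) : ℂ) := by
    have := Polynomial.aeval_algebraMap_apply ℂ (x + 2 / x : ℝ) Ψ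
    simpa using this
  rw [h1, h2, h3, ← Complex.ofReal_mul, Complex.ofReal_im]

theorem Lg_pos (x : ℝ) (hx : 0 < x) : (Lg x).im = 0 := by
  unfold Lg
  have h1 : -Complex.I * (x : ℂ) = (x : ℂ) * (-Complex.I) := by ring
  rw [h1, Complex.add_im, Complex.log_im, Complex.arg_real_mul _ hx, Complex.arg_neg_I]
  simp

theorem Lg_neg (x : ℝ) (hx : x < 0) : (Lg x).im = Real.pi := by
  unfold Lg
  have h1 : -Complex.I * (x : ℂ) = ((-x : ℝ) : ℂ) * Complex.I := by push_cast; ring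
  rw [h1, Complex.add_im, Complex.log_im, Complex.arg_real_mul _ (by linarith), Complex.arg_I]
  simp

theorem Lg_one : (Lg (1 + Complex.I)).im = Real.pi / 4 := by
  unfold Lg
  have h1 : -Complex.I * (1 + Complex.I) = 1 - Complex.I := by
    linear_combination -Complex.I_sq
  rw [h1, Complex.add_im, Complex.log_im]
  have h2 : Complex.arg (1 - Complex.I) = -(Real.pi / 4) := by
    have h3 : (1 - Complex.I) = ((Real.sqrt 2 : ℝ) : ℂ) *
        (Complex.cos ((-(Real.pi / 4) : ℝ) : ℂ) + Complex.sin ((-(Real.pi / 4) : ℝ) : ℂ) * Complex.I) := by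
      rw [← Complex.ofReal_cos, ← Complex.ofReal_sin, Real.cos_neg, Real.sin_neg,
        Real.cos_pi_div_four, Real.sin_pi_div_four]
      have h4 : (Real.sqrt 2) * (Real.sqrt 2 / 2) = 1 := by
        rw [← mul_div_assoc, Real.mul_self_sqrt (by norm_num)]
        norm_num
      have h5 : ((Real.sqrt 2 : ℝ) : ℂ) * ((Real.sqrt 2 / 2 : ℝ) : ℂ) = 1 := by
        rw [← Complex.ofReal_mul, h4, Complex.ofReal_one]
      rw [Complex.ofReal_neg, mul_add]
      linear_combination (-(1 : ℂ) + Complex.I) * h5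
    rw [h3, Complex.arg_mul_cos_add_sin_mul_I (by positivity)]
    constructor
    · linarith [Real.pi_pos]
    · linarith [Real.pi_pos]
  rw [h2]
  simp
  ring

theorem rat_mul_im (k : ℚ) (z : ℂ) : ((k : ℂ) * z).im = (k : ℝ) * z.im := by
  have : (k : ℂ) = ((k : ℝ) : ℂ) := by push_cast; rfl
  rw [this, Complex.im_ofReal_mul]

/-- PH12 -/
theorem int : S_int := by
  intro p hp Q l x0 B hx0 hhead hlen hB hpath
  have hSl := Sl_spec p hp Q
  set k := kf p Q with hk
  set Ψ := Pf p Q with hΨ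
  have hmain : ∀ b : ℂ, l.getLast? = some b → |(Fp p k Ψ b).im| ≤ plen l * B := by
    intro b hb
    have h1 := pathBound (Fp p k Ψ) (Fd p Q) B l (x0 : ℂ) b hhead hb (by
      intro x hx
      obtain ⟨⟨h1, h2, h3⟩, h4⟩ := hpath x hx
      have hx0' : x ≠ 0 := by
        intro h
        rw [h, norm_zero] at h2
        linarith
      exact ⟨hasDeriv p Q Ψ k hSl x hx0' h1 h3 hp, norm_Fd p Q x h2 B h4⟩)
    have h2 : (Fp p k Ψ (x0 : ℂ)).im = 0 := by
      unfold Fp
      rw [Complex.add_im, rat_mul_im, Lg_pos x0 hx0, real_part_im]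
      ring
    have h3 : |(Fp p k Ψ b - Fp p k Ψ (x0 : ℂ)).im| ≤ ‖Fp p k Ψ b - Fp p k Ψ (x0 : ℂ)‖ :=
      Complex.abs_im_le_norm _
    rw [Complex.sub_im, h2, sub_zero] at h3
    exact h3.trans h1
  constructor
  · intro hlast
    have h1 := hmain _ hlast
    have hI : (1 + Complex.I) ≠ 0 := by
      intro h
      have := congrArg Complex.re h
      simp at this
    have e0 : (2 : ℂ) / (1 + Complex.I) = 1 - Complex.I := by
      rw [div_eq_iff hI]
      linear_combination Complex.I_sq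
    have e1 : (1 + Complex.I) + 2 / (1 + Complex.I) = 2 := by rw [e0]; ring
    have e2 : (1 + Complex.I) - 2 / (1 + Complex.I) = 2 * Complex.I := by rw [e0]; ring
    have e3 : (2 * Complex.I) ^ (4 * p) = ((16 ^ p : ℝ) : ℂ) := by
      rw [pow_mul]
      have : (2 * Complex.I) ^ 4 = 16 := by
        rw [mul_pow, Complex.I_pow_four]
        norm_num
      rw [this]
      push_cast
      rfl
    have e4 : aeval (2 : ℂ) Ψ = (((Ψ.eval 2 : ℚ) : ℝ) : ℂ) := by
      have h2 := Polynomial.aeval_algebraMap_apply ℂ (2 : ℚ) Ψ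
      simpa using h2
    have e5 : (Fp p k Ψ (1 + Complex.I)).im =
        ((k : ℝ) * Real.pi + (bf p Q : ℝ)) / 4 := by
      unfold Fp
      rw [Complex.add_im, rat_mul_im, Lg_one, e1, e2, e3, e4]
      have e6 : (((Ψ.eval 2 : ℚ) : ℝ) : ℂ) * (2 * Complex.I / ((16 ^ p : ℝ) : ℂ)) =
          ((((Ψ.eval 2 : ℚ) : ℝ) * 2 / 16 ^ p : ℝ) : ℂ) * Complex.I := by
        push_cast
        ring
      rw [e6, Complex.im_ofReal_mul, Complex.I_im]
      unfold bf
      rw [← hΨ]
      push_cast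
      ring
    rw [e5, abs_div, abs_of_pos (by norm_num : (0 : ℝ) < 4), div_le_iff₀ (by norm_num)] at h1
    linarith
  · intro x1 hx1 hlast
    have h1 := hmain _ hlast
    have e : (Fp p k Ψ (x1 : ℂ)).im = (k : ℝ) * Real.pi := by
      unfold Fp
      rw [Complex.add_im, rat_mul_im, Lg_neg x1 hx1, real_part_im]
      ring
    rw [e, abs_mul, abs_of_pos Real.pi_pos] at h1
    have h2 : |(k : ℝ)| ≤ |(k : ℝ)| * Real.pi :=
      le_mul_of_one_le_right (abs_nonneg _) (by linarith [Real.pi_gt_three])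
    exact h2.trans h1

end Pool.Agent.Y511.PiH
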